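import Pool.Agent.Run7.h325.RSI.Stm

/-! # NRM, WM, FN (project RSI of helper325) -/

set_option autoImplicit false

namespace Pool.Agent.Run7.h270.RSI

open MeasureTheory Filter Topology Metric Pool.Agent.Run7.h325.RSI

noncomputable section

lemma m4_ge (m : ℕ) (hm : 1 ≤ m) : (1 : ℝ) ≤ (m : ℝ) ^ 4 :=
  one_le_pow₀ (by exact_mod_cast hm)

lemma r0_pos (m : ℕ) (hm : 1 ≤ m) : 0 < r0 m := by
  have : (0 : ℝ) < m := by exact_mod_cast hm
  unfold r0; positivity

lemma r0_le (m : ℕ) (hm : 1 ≤ m) : r0 m ≤ 1 / 16 := by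
  have : (1 : ℝ) ≤ m := by exact_mod_cast hm
  unfold r0
  apply one_div_le_one_div_of_le (by norm_num)
  linarith

lemma rho_pos (m : ℕ) : 0 < rho m := by
  unfold rho hh; positivity

lemma rho'_pos (m : ℕ) : 0 < rho' m := by
  unfold rho'
  have := rho_pos m
  positivity

lemma rho_le (m : ℕ) : rho m ≤ 1 / 32768 := by
  unfold rho hh
  have h4 : (1 : ℝ) ≤ 4 ^ (m ^ 4) := one_le_pow₀ (by norm_num)
  rw [div_div]
  apply one_div_le_one_div_of_le (by norm_num)
  nlinarith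

lemma dl_pos (m : ℕ) (hm : 1 ≤ m) : 0 < dl m := by
  have := m4_ge m hm
  unfold dl; positivity

lemma dl_le (m : ℕ) (hm : 1 ≤ m) : dl m ≤ 1 := by
  unfold dl
  rw [div_le_one (by have := m4_ge m hm; linarith)]
  exact m4_ge m hm

lemma log_r0 (m : ℕ) (hm : 1 ≤ m) : Real.log (r0 m) = - (4 * Real.log 2 + Real.log m) := by
  have : (0 : ℝ) < m := by exact_mod_cast hm
  unfold r0
  rw [one_div, Real.log_inv, Real.log_mul (by norm_num) this.ne',
    show (16 : ℝ) = 2 ^ 4 by norm_num, Real.log_pow]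
  norm_num

lemma log_rho (m : ℕ) : Real.log (rho m) = - (15 * Real.log 2 + 2 * (m : ℝ) ^ 4 * Real.log 2) := by
  unfold rho hh
  rw [div_div, one_div, Real.log_inv, Real.log_mul (by positivity) (by norm_num),
    Real.log_mul (by norm_num) (by positivity), Real.log_pow,
    show (1024 : ℝ) = 2 ^ 10 by norm_num, show (32 : ℝ) = 2 ^ 5 by norm_num,
    show (4 : ℝ) = 2 ^ 2 by norm_num, Real.log_pow, Real.log_pow, Real.log_pow]
  push_cast
  ring

lemma log_rho' (m : ℕ) : Real.log (rho' m) = Real.log (rho m) - (m : ℝ) ^ 4 - 2 * Real.log 2 := by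
  unfold rho'
  have := rho_pos m
  rw [Real.log_div (by positivity) (by norm_num), Real.log_mul this.ne' (Real.exp_ne_zero _),
    Real.log_exp, show (4 : ℝ) = 2 ^ 2 by norm_num, Real.log_pow]
  push_cast
  ring

lemma rho_lt_r0 (m : ℕ) (hm : 1 ≤ m) : rho m < r0 m := by
  have h0 : (0 : ℝ) < m := by exact_mod_cast hm
  unfold rho hh r0
  rw [div_div]
  apply one_div_lt_one_div_of_lt (by positivity)
  have h1 : (m : ℝ) < 4 ^ (m ^ 4) := by
    have a1 : m < 4 ^ m := Nat.lt_pow_self (by norm_num)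
    have a2 : 4 ^ m ≤ 4 ^ (m ^ 4) := Nat.pow_le_pow_right (by norm_num) (by
      calc m = m ^ 1 := (pow_one m).symm
        _ ≤ m ^ 4 := Nat.pow_le_pow_right hm (by norm_num))
    exact_mod_cast a1.trans_le a2
  nlinarith

lemma Gr_meas (m : ℕ) : Measurable (Gr m) := by
  unfold Gr
  refine Measurable.ite ?_ ?_ measurable_const
  · exact (measurableSet_lt measurable_const measurable_id).inter
      (measurableSet_lt measurable_id measurable_const)
  · exact (measurable_id.div_const _).pow_const _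

lemma Gr_pos (m : ℕ) (hm : 1 ≤ m) (t : ℝ) : 0 < Gr m t := by
  unfold Gr
  split_ifs with h
  · exact Real.rpow_pos_of_pos (div_pos h.1 (r0_pos m hm)) _
  · exact one_pos

/-- bound of the weight -/
lemma Gr_inv_le (m : ℕ) (hm : 1 ≤ m) (r : ℝ) (h1 : rho' m ≤ r) (h2 : r ≤ rho m) :
    (Gr m r)⁻¹ ≤ Real.exp 12 * (r / r0 m) ^ 2 := by
  have hr : 0 < r := (rho'_pos m).trans_le h1
  have hr0 := r0_pos m hm
  have hlt : r < r0 m := h2.trans_lt (rho_lt_r0 m hm)
  have hL := m4_ge m hm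
  unfold Gr
  rw [if_pos ⟨hr, hlt⟩, ← Real.rpow_neg (by positivity), neg_neg]
  have hq : 0 < r / r0 m := by positivity
  rw [show (2 - dl m) = 2 + (- dl m) by ring, Real.rpow_add hq, mul_comm]
  have e2 : (r / r0 m) ^ (2 : ℝ) = (r / r0 m) ^ 2 := by
    rw [← Real.rpow_natCast]; norm_num
  rw [e2]
  refine mul_le_mul_of_nonneg_right ?_ (by positivity)
  rw [Real.rpow_def_of_pos hq, Real.exp_le_exp, Real.log_div hr.ne' hr0.ne']
  have h3 : Real.log (rho' m) ≤ Real.log r := Real.log_le_log (rho'_pos m) h1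
  rw [log_rho', log_rho] at h3
  rw [log_r0 m hm]
  have hlm : 0 ≤ Real.log m := Real.log_natCast_nonneg m
  have hl2 := Real.log_two_lt_d9
  have hl2p := Real.log_two_gt_d9
  have h4 : - (Real.log r - -(4 * Real.log 2 + Real.log m)) ≤ 12 * (m : ℝ) ^ 4 := by nlinarith
  have h5 : dl m * (m : ℝ) ^ 4 = 1 := by unfold dl; field_simp
  calc (Real.log r - -(4 * Real.log 2 + Real.log m)) * -dl m
      = - (Real.log r - -(4 * Real.log 2 + Real.log m)) * dl m := by ring
    _ ≤ 12 * (m : ℝ) ^ 4 * dl m := mul_le_mul_of_nonneg_right h4 (dl_pos m hm).le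
    _ = 12 := by rw [mul_assoc, mul_comm _ (dl m), h5]; norm_num

theorem t_NRM : S_RAD → S_NRM := by
  intro hRAD m φ hm hφ
  obtain ⟨hR1, hR2, -⟩ := hRAD
  have hr0 := r0_pos m hm
  have hL := m4_ge m hm
  set K : ℝ := Real.exp 12 * r0 m ^ 2 with hK
  have hK0 : 0 < K := by positivity
  let g : ℝ → ℝ := fun r => if rho' m ≤ r ∧ r ≤ rho m then K / r ^ 2 else 0
  have hg : (fun r : ℝ => r * g r) = Set.indicator (Set.Icc (rho' m) (rho m)) (fun r => K * r⁻¹) := by
    ext r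
    by_cases h : rho' m ≤ r ∧ r ≤ rho m
    · have hr : 0 < r := (rho'_pos m).trans_le h.1
      rw [Set.indicator_of_mem (show r ∈ Set.Icc (rho' m) (rho m) from h)]
      simp only [g, if_pos h]
      field_simp
    · rw [Set.indicator_of_notMem (show r ∉ Set.Icc (rho' m) (rho m) from h)]
      simp only [g, if_neg h, mul_zero]
  have hle : rho' m ≤ rho m := by
    unfold rho'
    have h1 := rho_pos m
    have h2 : Real.exp (-(m : ℝ) ^ 4) ≤ 1 := Real.exp_le_one_iff.mpr (by linarith)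
    nlinarith [Real.exp_pos (-(m : ℝ) ^ 4)]
  have hsub : Set.Icc (rho' m) (rho m) ⊆ Set.Ioi 0 := fun r hr => (rho'_pos m).trans_le hr.1
  have hcont : ContinuousOn (fun r : ℝ => K * r⁻¹) (Set.Icc (rho' m) (rho m)) :=
    continuousOn_const.mul (continuousOn_id.inv₀ fun r hr => ((rho'_pos m).trans_le hr.1).ne')
  have hgi : IntegrableOn (fun r => r * g r) (Set.Ioi (0 : ℝ)) := by
    rw [hg]
    refine ((integrable_indicator_iff measurableSet_Icc).mpr ?_).integrableOn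
    exact hcont.integrableOn_compact isCompact_Icc
  have hgI : Integrable (fun x : E2 => g ‖x‖) := (hR2 g).mpr hgi
  have hgval : ∫ x : E2, g ‖x‖ ≤ Real.exp 12 * (6 * Real.pi * r0 m ^ 2 * (m : ℝ) ^ 4) := by
    rw [hR1 g, hg]
    have e1 : ∫ r in Set.Ioi (0 : ℝ), Set.indicator (Set.Icc (rho' m) (rho m)) (fun r => K * r⁻¹) r =
        K * (Real.log (rho m) - Real.log (rho' m)) := by
      rw [setIntegral_indicator measurableSet_Icc, Set.inter_eq_right.mpr hsub,
        integral_Icc_eq_integral_Ioc, ← intervalIntegral.integral_of_le hle,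
        intervalIntegral.integral_const_mul,
        integral_inv_of_pos (rho'_pos m) (rho_pos m),
        Real.log_div (rho_pos m).ne' (rho'_pos m).ne']
    rw [e1, log_rho']
    have hl2 := Real.log_two_lt_d9
    have h1 : K * (Real.log (rho m) - (Real.log (rho m) - (m : ℝ) ^ 4 - 2 * Real.log 2)) ≤
        K * (3 * (m : ℝ) ^ 4) := mul_le_mul_of_nonneg_left (by nlinarith) hK0.le
    calc _ ≤ 2 * Real.pi * (K * (3 * (m : ℝ) ^ 4)) :=
          mul_le_mul_of_nonneg_left h1 (by positivity)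
      _ = _ := by rw [hK]; ring
  have hpt : ∀ x : E2, φ x ^ 2 * (Gr m ‖x‖)⁻¹ ≤ g ‖x‖ := by
    intro x
    by_cases h0 : φ x = 0
    · rw [h0]
      simp only [g]
      split_ifs
      · rw [zero_pow two_ne_zero, zero_mul]; positivity
      · simp
    · obtain ⟨h1, h2⟩ := hφ.supp x h0
      have hx : 0 < ‖x‖ := (rho'_pos m).trans_le h1
      simp only [g, if_pos (show rho' m ≤ ‖x‖ ∧ ‖x‖ ≤ rho m from ⟨h1, h2⟩)]
      have h3 : φ x ^ 2 ≤ (r0 m ^ 2 / ‖x‖ ^ 2) ^ 2 := pow_le_pow_left₀ (hφ.nonneg x) (hφ.le x) 2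
      calc φ x ^ 2 * (Gr m ‖x‖)⁻¹ ≤ (r0 m ^ 2 / ‖x‖ ^ 2) ^ 2 * (Real.exp 12 * (‖x‖ / r0 m) ^ 2) :=
            mul_le_mul h3 (Gr_inv_le m hm _ h1 h2) (inv_nonneg.mpr (Gr_pos m hm _).le) (by positivity)
        _ = K / ‖x‖ ^ 2 := by rw [hK]; field_simp
  have hnn : ∀ x : E2, 0 ≤ φ x ^ 2 * (Gr m ‖x‖)⁻¹ := fun x =>
    mul_nonneg (sq_nonneg _) (inv_nonneg.mpr (Gr_pos m hm _).le)
  have hmeas : AEStronglyMeasurable (fun x : E2 => φ x ^ 2 * (Gr m ‖x‖)⁻¹) volume := by
    have m1 : Measurable φ := hφ.smooth.continuous.measurable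
    have m2 : Measurable (fun x : E2 => Gr m ‖x‖) := (Gr_meas m).comp measurable_norm
    exact ((m1.pow_const 2).mul m2.inv).aestronglyMeasurable
  have hI : Integrable (fun x : E2 => φ x ^ 2 * (Gr m ‖x‖)⁻¹) := by
    refine hgI.mono' hmeas (Eventually.of_forall fun x => ?_)
    rw [Real.norm_of_nonneg (hnn x)]
    exact hpt x
  exact ⟨hI, (integral_mono hI hgI hpt).trans hgval⟩

lemma rho_le4 (m : ℕ) : rho m ≤ 1 / 4 := (rho_le m).trans (by norm_num)

lemma Gr_far (m : ℕ) (hm : 1 ≤ m) (t : ℝ) (ht : 1 / 4 ≤ t) : Gr m t = 1 := by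
  unfold Gr
  rw [if_neg]
  rintro ⟨-, h⟩
  have := r0_le m hm
  linarith

theorem t_WM : S_GINT → S_LAT → S_WM := by
  intro hG hLAT m p hm
  obtain ⟨-, -, -, hw⟩ := hLAT
  have hr0 := r0_pos m hm
  have hL := m4_ge m hm
  have hrho := rho_pos m
  obtain ⟨g1, g2⟩ := hG m hm (rho m) hrho (rho_lt_r0 m hm).le
  have hwt : ∀ x ∈ ball (zz p) (rho m), wt m x = Gr m ‖x - zz p‖ := by
    intro x hx
    rw [mem_ball, dist_eq_norm] at hx
    obtain ⟨a1, a2⟩ := hw (zz p) ⟨p, rfl⟩ x (hx.le.trans (rho_le4 m))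
    unfold wt U V
    rw [a1, Gr_far m hm _ a2, div_one]
  have hind : ∀ x : E2, Set.indicator (ball (zz p) (rho m)) (fun x => Gr m ‖x - zz p‖) x =
      Set.indicator (ball (0 : E2) (rho m)) (fun x => Gr m ‖x‖) (x - zz p) := by
    intro x
    by_cases hx : x ∈ ball (zz p) (rho m)
    · rw [Set.indicator_of_mem hx, Set.indicator_of_mem]
      rw [mem_ball, dist_eq_norm] at hx
      rwa [mem_ball_zero_iff]
    · rw [Set.indicator_of_notMem hx, Set.indicator_of_notMem]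
      rw [mem_ball, dist_eq_norm] at hx
      rwa [mem_ball_zero_iff]
  have hI0 : Integrable (Set.indicator (ball (0 : E2) (rho m)) (fun x => Gr m ‖x‖)) :=
    (integrable_indicator_iff measurableSet_ball).mpr g1
  have hI : IntegrableOn (fun x => Gr m ‖x - zz p‖) (ball (zz p) (rho m)) := by
    rw [← integrable_indicator_iff measurableSet_ball]
    have := hI0.comp_sub_right (zz p)
    exact this.congr (Eventually.of_forall fun x => (hind x).symm)
  refine ⟨(integrableOn_congr_fun hwt measurableSet_ball).mpr hI, ?_⟩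
  have e1 : ∫ x in ball (zz p) (rho m), wt m x = ∫ x in ball (0 : E2) (rho m), Gr m ‖x‖ := by
    rw [setIntegral_congr_fun measurableSet_ball hwt, ← integral_indicator measurableSet_ball,
      ← integral_indicator measurableSet_ball]
    calc ∫ x, Set.indicator (ball (zz p) (rho m)) (fun x => Gr m ‖x - zz p‖) x =
        ∫ x, Set.indicator (ball (0 : E2) (rho m)) (fun x => Gr m ‖x‖) (x - zz p) :=
          integral_congr_ae (Eventually.of_forall hind)
      _ = _ := integral_sub_right_eq_self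
          (fun x => Set.indicator (ball (0 : E2) (rho m)) (fun x => Gr m ‖x‖) x) (zz p)
  rw [e1, g2]
  have hq : 0 < rho m / r0 m := by positivity
  have e2 : Real.exp (-12) ≤ (rho m / r0 m) ^ (dl m) := by
    rw [Real.rpow_def_of_pos hq, Real.exp_le_exp, Real.log_div hrho.ne' hr0.ne', log_rho,
      log_r0 m hm]
    have hlm : 0 ≤ Real.log m := Real.log_natCast_nonneg m
    have hl2 := Real.log_two_lt_d9
    have hl2p := Real.log_two_gt_d9
    have h5 : dl m * (m : ℝ) ^ 4 = 1 := by unfold dl; field_simp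
    have h4 : -(12 * (m : ℝ) ^ 4) ≤ -(15 * Real.log 2 + 2 * (m : ℝ) ^ 4 * Real.log 2) -
        -(4 * Real.log 2 + Real.log m) := by nlinarith
    have h6 := mul_le_mul_of_nonneg_right h4 (dl_pos m hm).le
    have h7 : -(12 * (m : ℝ) ^ 4) * dl m = -12 := by
      rw [neg_mul, mul_assoc, mul_comm _ (dl m), h5]; norm_num
    linarith
  calc Real.exp (-12) * (2 * Real.pi * r0 m ^ 2 * (m : ℝ) ^ 4) ≤
      (rho m / r0 m) ^ (dl m) * (2 * Real.pi * r0 m ^ 2 * (m : ℝ) ^ 4) :=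
        mul_le_mul_of_nonneg_right e2 (by positivity)
    _ = _ := by ring

lemma ze_inj (p q : ℤ × ℤ) (h : ze p = ze q) : p = q := by
  have h0 : (p.1 : ℝ) = q.1 := congrArg (fun v : E2 => v 0) h
  have h1 : (p.2 : ℝ) = q.2 := congrArg (fun v : E2 => v 1) h
  apply Prod.ext
  · exact_mod_cast h0
  · exact_mod_cast h1

theorem t_FN : S_NRM → S_LAT → S_FN := by
  intro hN hLAT m φ hm hφ
  obtain ⟨hI, hb⟩ := hN m φ hm hφ
  obtain ⟨-, -, hf, -⟩ := hLAT
  have hL := m4_ge m hm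
  set K : ℝ := Real.exp 12 * (6 * Real.pi * r0 m ^ 2 * (m : ℝ) ^ 4) with hK
  have hK0 : 0 ≤ K := by positivity
  have hnn : ∀ x : E2, 0 ≤ φ x ^ 2 * (Gr m ‖x‖)⁻¹ := fun x =>
    mul_nonneg (sq_nonneg _) (inv_nonneg.mpr (Gr_pos m hm _).le)
  have hpt : ∀ x : E2, ff m φ x ^ 2 * wt m x ≤
      ∑ p ∈ BI m, φ (x - ze p) ^ 2 * (Gr m ‖x - ze p‖)⁻¹ := by
    intro x
    by_cases hall : ∀ p ∈ BI m, φ (x - ze p) = 0
    · have h0 : ff m φ x = 0 := Finset.sum_eq_zero hall
      rw [h0, zero_pow two_ne_zero, zero_mul]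
      exact Finset.sum_nonneg fun p _ => hnn _
    · push Not at hall
      obtain ⟨p, hp, hne⟩ := hall
      obtain ⟨s1, s2⟩ := hφ.supp _ hne
      obtain ⟨a1, a2⟩ := hf (ze p) ⟨p, rfl⟩ x (s2.trans (rho_le4 m))
      have hother : ∀ q ∈ BI m, q ≠ p → φ (x - ze q) = 0 := by
        intro q _ hqp
        by_contra hq
        obtain ⟨t1, t2⟩ := hφ.supp _ hq
        have hd : ‖ze q - ze p‖ ≤ 1 / 4 := by
          have e : ze q - ze p = (x - ze p) - (x - ze q) := by abel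
          rw [e]
          refine (norm_sub_le _ _).trans ?_
          have := rho_le m
          linarith
        obtain ⟨b1, -⟩ := hf (ze p) ⟨p, rfl⟩ (ze q) hd
        have b2 : infDist (ze q) Zf = 0 := infDist_zero_of_mem ⟨q, rfl⟩
        rw [b2] at b1
        exact hqp (ze_inj q p (sub_eq_zero.mp (norm_eq_zero.mp b1.symm)))
      have hff : ff m φ x = φ (x - ze p) := Finset.sum_eq_single_of_mem p hp hother
      have hwx : wt m x = (Gr m ‖x - ze p‖)⁻¹ := by
        unfold wt U V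
        rw [a1, Gr_far m hm _ a2, one_div]
      rw [hff, hwx]
      exact Finset.single_le_sum (f := fun p => φ (x - ze p) ^ 2 * (Gr m ‖x - ze p‖)⁻¹)
        (fun q _ => hnn _) hp
  have hmeas : ∀ p : ℤ × ℤ, Measurable (fun x : E2 =>
      ENNReal.ofReal (φ (x - ze p) ^ 2 * (Gr m ‖x - ze p‖)⁻¹)) := by
    intro p
    have m1 : Measurable φ := hφ.smooth.continuous.measurable
    have m0 : Measurable (fun x : E2 => x - ze p) := measurable_id.sub_const _
    have m2 : Measurable (fun x : E2 => Gr m ‖x - ze p‖) := (Gr_meas m).comp (measurable_norm.comp m0)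
    exact (((m1.comp m0).pow_const 2).mul m2.inv).ennreal_ofReal
  have hone : ∀ p : ℤ × ℤ, ∫⁻ x : E2, ENNReal.ofReal (φ (x - ze p) ^ 2 * (Gr m ‖x - ze p‖)⁻¹) ≤
      ENNReal.ofReal K := by
    intro p
    rw [lintegral_sub_right_eq_self (fun x : E2 => ENNReal.ofReal (φ x ^ 2 * (Gr m ‖x‖)⁻¹)) (ze p),
      ← ofReal_integral_eq_lintegral_ofReal hI (Eventually.of_forall hnn)]
    exact ENNReal.ofReal_le_ofReal hb
  have hcard : ((BI m).card : ℝ) = 16 * (4 : ℝ) ^ (m ^ 4) := by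
    unfold BI
    rw [Finset.card_product, Int.card_Ico, sub_zero]
    have e1 : (4 * 2 ^ (m ^ 4) : ℤ).toNat = 4 * 2 ^ (m ^ 4) := by
      have : (4 * 2 ^ (m ^ 4) : ℤ) = ((4 * 2 ^ (m ^ 4) : ℕ) : ℤ) := by push_cast; ring
      rw [this, Int.toNat_natCast]
    rw [e1]
    push_cast
    have : (4 : ℝ) ^ (m ^ 4) = 2 ^ (m ^ 4) * 2 ^ (m ^ 4) := by
      rw [← mul_pow]; norm_num
    rw [this]; ring
  calc ∫⁻ x, ENNReal.ofReal ((ff m φ x) ^ 2 * wt m x)
      ≤ ∫⁻ x, ∑ p ∈ BI m, ENNReal.ofReal (φ (x - ze p) ^ 2 * (Gr m ‖x - ze p‖)⁻¹) := by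
        refine lintegral_mono fun x => ?_
        rw [← ENNReal.ofReal_sum_of_nonneg fun p _ => hnn _]
        exact ENNReal.ofReal_le_ofReal (hpt x)
    _ = ∑ p ∈ BI m, ∫⁻ x, ENNReal.ofReal (φ (x - ze p) ^ 2 * (Gr m ‖x - ze p‖)⁻¹) :=
        lintegral_finsetSum _ fun p _ => hmeas p
    _ ≤ ∑ p ∈ BI m, ENNReal.ofReal K := Finset.sum_le_sum fun p _ => hone p
    _ = ENNReal.ofReal (16 * (4 : ℝ) ^ (m ^ 4) * K) := by
        rw [Finset.sum_const, nsmul_eq_mul, ← hcard,
          ENNReal.ofReal_mul (p := ((BI m).card : ℝ)) (Nat.cast_nonneg _), ENNReal.ofReal_natCast]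

end

end Pool.Agent.Run7.h270.RSI

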